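import Pool.Agent.Q79.QD.Main

/-!
# A restricted quasi-diagonal of arithmetic genus four (problem MP_6276a2_ag, Q1: yes)

The definitions are in `Pool.Agent.Q79.QD.LBDefs` (line bundles), `Pool.Agent.Q79.QD.CurveDefs`
(smooth curves, quasi-diagonals), `Pool.Agent.Q79.QD.RDefs` (the elliptic curve with the affine
equation `y² = x³ + α x + β` and its group of complex points, restricted quasi-diagonals) and
`Pool.Agent.H666R3.NG.GenusDefs` (the arithmetic genus `dim H¹(S, 𝒪_S)`).

The proof: a horizontal line `y = c` meets `E` in three points `P₁, P₂, P₃` with `P₁ + P₂ + P₃ = 0`.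
The curve `S` of all such ordered triples is
`X₁³ + α X₁ Z² + β Z³ - Y² Z = X₂² + X₁ X₂ + X₁² + α Z² = 0` in projective three-space (a complete
intersection of a cubic and a quadric, with a node over the origin of `E`), which is irreducible for
`α ≠ 0`; the three maps `S → E` are `(X₁ : Y : Z)`, `(X₂ : Y : Z)` and `(-X₁ - X₂ : Y : Z)`, and each
of them pulls back `L = 𝒪(1)` to the pull back of `𝒪(1)` from the `y`-line.
-/

set_option autoImplicit false

open AlgebraicGeometry CategoryTheory Limits MvPolynomial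

namespace Pool.Agent.Results.MP_6276a2_ag.ArithmeticGenusFour

open Pool.Agent.Helper304.Ses Pool.Agent.H666R3.NG Pool.Agent.Helper198.Sch Pool.Agent.Q79.QD

attribute [local instance] MvPolynomial.gradedAlgebra

/-- **Theorem.**  Let `α ≠ 0`, `4 α³ + 27 β² ≠ 0`.  On the elliptic curve `E` with the affine equation
`y² = x³ + α x + β` there is an ample line bundle `L` such that `E ^ 3` contains a restricted
quasi-diagonal `S` over `(E, L)` of arithmetic genus four; in particular `S` is not an elliptic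
curve. -/
theorem result (α β : ℂ) (hα : α ≠ 0) (hΔ : 4 * α ^ 3 + 27 * β ^ 2 ≠ 0) :
    ∃ (E : Scheme.{0}) (sE : E ⟶ Cpt) (o : Cpt ⟶ E) (a : Spec (.of (WE α β).CoordinateRing) ⟶ E),
      IsModel (WE α β) sE o a ∧
      ∃ (L : LBd E) (S : Scheme.{0}) (j : S ⟶ (pwr sE 3).left),
        L.IsAmple ∧ IsQuasiDiagonal sE L 3 j ∧ IsRestricted (WE α β) sE o a 3 j ∧
        HasGenus (j ≫ (pwr sE 3).hom) 4 := by
  obtain ⟨j, hj, h1, h2⟩ := exists_restricted hα hΔ 0
  refine ⟨_, _, _, _, isModel α β hα hΔ, O1' _ eE he_E, _, j, isAmple_O1 he_E, h1, h2, ?_⟩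
  have hj' : j ≫ (pwr (V.str (JE α β (-1) 0)) 3).hom = V.str (JS α β (-1) 0) := hj
  rw [hj']
  exact genusS _ _ _ _

end Pool.Agent.Results.MP_6276a2_ag.ArithmeticGenusFour
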